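import Pool.Agent.H30.GMCS.Defs
import Pool.Agent.H30.GMC.All

/-! The definitions of `GMCS` agree with those of `GMC`. -/

open AlgebraicGeometry CategoryTheory GMC

namespace GMCS

theorem P1_eq : GMCS.P1 = GMC.P1 := rfl

section

variable {V W : PVar}

theorem mul_nat (D : PrimeDiv V →₀ ℤ) (n : ℕ) : mul n D = n • D := by
  unfold mul
  rw [natCast_zsmul]

theorem mul_neg' (D : PrimeDiv V →₀ ℤ) : mul (-1) D = -D := by
  unfold mul
  rw [neg_smul, one_smul]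

theorem add_one' (D E : PrimeDiv V →₀ ℤ) : add D 1 E = D + E := by
  unfold add mul
  rw [one_smul]

theorem add_neg_one (D E : PrimeDiv V →₀ ℤ) : add D (-1) E = D - E := by
  unfold add mul
  rw [neg_smul, one_smul, sub_eq_add_neg]

theorem add_nat' (D E : PrimeDiv V →₀ ℤ) (n : ℕ) : add D n E = D + n • E := by
  unfold add mul
  rw [natCast_zsmul]

theorem add_comb (K E : PrimeDiv V →₀ ℤ) (k m : ℕ) : mul k (add E m K) = k • (m • K + E) := by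
  rw [mul_nat, add_nat', add_comm]

theorem linEquiv_iff (D E : PrimeDiv V →₀ ℤ) : LinEquiv D E ↔ FCB.LinEquiv (X := V.X) D E :=
  Iff.rfl

theorem eff_iff (D : PrimeDiv V →₀ ℤ) : Eff D ↔ 0 ≤ D := Iff.rfl

theorem ample_iff (D : PrimeDiv V →₀ ℤ) : IsAmple D ↔ FCB.IsAmple (X := V.X) D := by
  have h : IsAmple D ↔ ∀ x : Pt V, ∃ (n : ℕ) (E : PrimeDiv V →₀ ℤ) (U : V.X.Opens),
    0 < n ∧ LinEquiv (n • D) E ∧ Eff E ∧ IsAffineOpen U ∧ Mem U x ∧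
      ∀ y : Pt V, Mem U y ↔ ∀ p : PrimeDiv V, On p y → E p = 0 := by
    unfold IsAmple
    simp only [mul_nat]
  exact h

theorem numTriv_iff (D : PrimeDiv V →₀ ℤ) : IsNumTriv D ↔ D ∈ FCB.numTriv V.X := by
  unfold IsNumTriv
  simp only [add_one', add_neg_one, ample_iff]
  exact Iff.rfl

theorem isEq_iff (D : PrimeDiv V →₀ ℤ) (x : Pt V) (h : FF V) :
    IsEq D x h ↔ GMC.IsEq (X := V.X) D x h := Iff.rfl

theorem cartier_iff (D : PrimeDiv V →₀ ℤ) : IsCartier D ↔ GMC.IsCartier (X := V.X) D := Iff.rfl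

theorem nef_iff (D : PrimeDiv V →₀ ℤ) : IsNef D ↔ GMC.IsNef (X := V.X) D := by
  unfold IsNef
  simp only [add_nat', ample_iff]
  exact Iff.rfl

theorem big_iff (D : PrimeDiv V →₀ ℤ) : IsBig D ↔ GMC.IsBig (X := V.X) D := by
  unfold IsBig
  simp only [mul_nat, add_one', ample_iff]
  exact Iff.rfl

theorem isPull_iff (g : W.X ⟶ V.X) (a : FF V) (b : FF W) :
    IsPull g a b ↔ GMC.IsPull (X := V.X) (Y := W.X) g a b := Iff.rfl

theorem isPullDiv_iff (g : W.X ⟶ V.X) (D : PrimeDiv V →₀ ℤ) (E : PrimeDiv W →₀ ℤ) :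
    IsPullDiv g D E ↔ GMC.IsPullDiv (X := V.X) (Y := W.X) g D E := Iff.rfl

theorem birational_iff (g : W.X ⟶ V.X) : IsBirational g ↔ GMC.IsBirational g := Iff.rfl

theorem genFinite_iff (g : W.X ⟶ V.X) : IsGenFinite g ↔ GMC.IsGenFinite g := Iff.rfl

theorem deg_eq (D : PrimeDiv V →₀ ℤ) : deg D = GMC.deg (X := V.X) D := rfl

end

theorem stk_eq {X : Scheme.{0}} (s : X ⟶ Spec (.of ℂ)) (x : X) :
    (stk s x).hom = GMC.stkHom s x := by
  have h1 : stk s x = ((Scheme.ΓSpecIso (.of ℂ)).inv ≫ s.appTop) ≫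
      X.presheaf.germ ⊤ x trivial := rfl
  have h2 : GMC.stkHom s x = (((Scheme.ΓSpecIso (.of ℂ)).inv ≫ s.appTop) ≫
      (X.presheaf.map (homOfLE (le_top : (⊤ : X.Opens) ≤ ⊤)).op ≫
        X.presheaf.germ ⊤ x trivial)).hom := rfl
  rw [h2, h1, X.presheaf.germ_res]
  rfl

theorem stk_gen {X : Scheme.{0}} [IsIntegral X] (s : X ⟶ Spec (.of ℂ)) :
    (stk s (gen X)).hom = FCB.ffHom s := by
  have h1 : stk s (gen X) = ((Scheme.ΓSpecIso (.of ℂ)).inv ≫ s.appTop) ≫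
      X.presheaf.germ ⊤ (genericPoint X) trivial := rfl
  have h2 : FCB.ffHom s = (((Scheme.ΓSpecIso (.of ℂ)).inv ≫ s.appTop) ≫
      (X.presheaf.map (homOfLE (le_top : (⊤ : X.Opens) ≤ ⊤)).op ≫
        X.presheaf.germ ⊤ (genericPoint X) trivial)).hom := rfl
  rw [h2, h1, X.presheaf.germ_res]
  rfl

theorem isLocal_iff {X : Scheme.{0}} (s : X ⟶ Spec (.of ℂ)) (x : X) {n : ℕ}
    (t : Fin n → Stk X x) : IsLocal s x t ↔ GMC.IsDiffBasis (GMC.stkHom s x) t := by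
  rw [← stk_eq]
  exact Iff.rfl

theorem isJac_iff {X : Scheme.{0}} [IsIntegral X] (s : X ⟶ Spec (.of ℂ)) {n : ℕ}
    (t a : Fin n → Stk X (gen X)) (g : Stk X (gen X)) :
    IsJacAt s t a g ↔ GMC.IsJacobian (K := X.functionField) (FCB.ffHom s) t a g := by
  rw [← stk_gen]
  exact Iff.rfl

theorem formOrd_iff {V : PVar} {n : ℕ} (a : Fin n → FF V) (p : PrimeDiv V) (k : ℤ) :
    FormOrd a p k ↔ GMC.FormOrd V.str a p k := by
  unfold FormOrd GMC.FormOrd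
  simp only [isJac_iff]
  have := isLocal_iff V.str (pt p) (n := n)
  constructor
  · rintro ⟨t, g, h1, h2, h3⟩
    exact ⟨t, g, (this t).mp h1, h2, h3⟩
  · rintro ⟨t, g, h1, h2, h3⟩
    exact ⟨t, g, (this t).mpr h1, h2, h3⟩

theorem isCan_iff {V : PVar} (K : PrimeDiv V →₀ ℤ) : IsCan V K ↔ GMC.IsCan V.str K := by
  unfold IsCan
  simp only [formOrd_iff]
  exact Iff.rfl

theorem isQFactorial_iff (V : PVar) : IsQFactorial V ↔ GMC.IsQFactorial V := by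
  unfold IsQFactorial
  simp only [mul_nat, cartier_iff]
  exact Iff.rfl

theorem isTerminal_iff (V : PVar) : IsTerminal V ↔ GMC.IsTerminal V := by
  unfold IsTerminal
  simp only [mul_nat, cartier_iff, formOrd_iff]
  exact Iff.rfl

theorem isWeakFano_iff (V : PVar) : IsWeakFano V ↔ GMC.IsWeakFano V := by
  unfold IsWeakFano
  simp only [mul_neg', nef_iff, big_iff, isCan_iff]
  exact Iff.rfl

section

variable {V W : PVar}

/-- Additive functions as homomorphisms. -/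
noncomputable def toHom (γ : (PrimeDiv V →₀ ℤ) → ℝ) (h : IsAdd γ) : FCB.WeilDiv V.X →+ ℝ :=
  AddMonoidHom.mk' γ fun D E => (congrArg γ (add_one' D E)).symm.trans (h D E)

theorem isAdd_coe (γ : (PrimeDiv V →₀ ℤ) →+ ℝ) : IsAdd (V := V) γ := fun D E => by
  rw [add_one', map_add]

theorem isNef1_coe (γ : (PrimeDiv V →₀ ℤ) →+ ℝ) : IsNef1 (V := V) γ ↔ γ ∈ GMC.Nef1 V := by
  unfold IsNef1
  simp only [numTriv_iff, eff_iff]
  constructor
  · rintro ⟨-, h1, h2⟩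
    exact ⟨h1, h2⟩
  · rintro ⟨h1, h2⟩
    exact ⟨isAdd_coe γ, h1, h2⟩

theorem hasClass_coe (g : W.X ⟶ V.X) (γ : (PrimeDiv V →₀ ℤ) →+ ℝ) :
    HasClass g γ ↔ GMC.HasClass (V := V) (C := W) g γ := by
  unfold HasClass
  simp only [mul_nat]
  constructor
  · rintro ⟨-, h⟩
    exact h
  · intro h
    exact ⟨isAdd_coe γ, h⟩

theorem isCurveClass_coe (β : (PrimeDiv V →₀ ℤ) →+ ℝ) :
    IsCurveClass V β ↔ GMC.IsCurveClass V β := by
  let φ : ((PrimeDiv V →₀ ℤ) →+ ℝ) →+ ((PrimeDiv V →₀ ℤ) → ℝ) :=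
    AddMonoidHom.coeFn (PrimeDiv V →₀ ℤ) ℝ
  let S : Set ((PrimeDiv V →₀ ℤ) →+ ℝ) := {γ | ∃ (C : PVar) (g : C.X ⟶ V.X),
    GMC.IsCurve C ∧ g ≫ V.str = C.str ∧ GMC.HasClass (V := V) (C := C) g γ}
  have hS : {γ : (PrimeDiv V →₀ ℤ) → ℝ | ∃ (C : PVar) (g : C.X ⟶ V.X),
      IsCurve C ∧ IsOver g ∧ HasClass g γ} = φ '' S := by
    ext γ
    constructor
    · rintro ⟨C, g, h1, h2, h3⟩
      exact ⟨toHom γ h3.1, ⟨C, g, h1, h2, (hasClass_coe g (toHom γ h3.1)).mp h3⟩, rfl⟩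
    · rintro ⟨γ', ⟨C, g, h1, h2, h3⟩, rfl⟩
      exact ⟨C, g, h1, h2, (hasClass_coe g γ').mpr h3⟩
  unfold IsCurveClass Comb
  rw [hS, ← AddMonoidHom.map_closure]
  constructor
  · rintro ⟨β', h1, h2⟩
    have : β' = β := DFunLike.coe_injective h2
    exact this ▸ h1
  · intro h
    exact ⟨β, h, rfl⟩

end

theorem isUniruled_iff (V : PVar) : IsUniruled V ↔ GMC.IsUniruled V := by
  have key : ∀ x : V.X, IsClosed ({x} : Set V.X) ↔ ∀ y : V.X, x ⤳ y → y = x := by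
    intro x
    constructor
    · intro h y hy
      have := hy.mem_closed h rfl
      exact this
    · intro h
      refine isClosed_of_closure_subset fun y hy => ?_
      exact h y (specializes_iff_mem_closure.mpr hy)
  constructor
  · intro h x hx
    exact h x ((key x).mp hx)
  · intro h x hx
    exact h x ((key x).mpr hx)

theorem isResolution_iff (Z Y : PVar) (φ : Z.X ⟶ Y.X) :
    IsResolution Z Y φ ↔ GMC.IsResolution Z Y φ := Iff.rfl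

theorem data_iff (V : PVar) (L : PrimeDiv V →₀ ℤ) (Y : PVar) (f : Y.X ⟶ V.X) (Z : PVar)
    (φ : Z.X ⟶ Y.X) (K E : PrimeDiv Z →₀ ℤ) (m : ℕ) : Data V L Y f Z φ K E m ↔
      GMC.IsResolution Z Y φ ∧ GMC.IsCan Z.str K ∧ 0 < m ∧
        GMC.IsPullDiv (X := V.X) (Y := Z.X) (φ ≫ f) (m • L) E := by
  unfold Data
  simp only [mul_nat, isCan_iff]
  exact Iff.rfl

theorem nef1_iff (V : PVar) (P : ((PrimeDiv V →₀ ℤ) → ℝ) → Prop) :
    (∀ γ : (PrimeDiv V →₀ ℤ) → ℝ, IsNef1 γ → P γ) ↔ ∀ γ ∈ GMC.Nef1 V, P γ := by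
  constructor
  · intro h γ hγ
    exact h γ ((isNef1_coe γ).mpr hγ)
  · intro h γ hγ
    exact h (toHom γ hγ.1) ((isNef1_coe (toHom γ hγ.1)).mp hγ)

theorem aInv_iff (V : PVar) (L : PrimeDiv V →₀ ℤ) (Y : PVar) (f : Y.X ⟶ V.X) (a : EReal) :
    AInv V L Y f a ↔ GMC.AInv V L Y f a := by
  unfold AInv GMC.AInv
  have h : ∀ (Z : PVar) (K E : PrimeDiv Z →₀ ℤ) (m : ℕ) (r : ℝ),
      (∀ γ : (PrimeDiv Z →₀ ℤ) → ℝ, IsNef1 γ → 0 ≤ γ K + r * (γ E / m)) ↔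
        ∀ γ ∈ GMC.Nef1 Z, 0 ≤ γ K + r * (γ E / m) := fun Z K E m r =>
    nef1_iff Z fun γ => 0 ≤ γ K + r * (γ E / m)
  simp only [data_iff, h]
  constructor
  · rintro ⟨Z, φ, K, E, m, ⟨h1, h2, h3, h4⟩, h5⟩
    exact ⟨Z, φ, K, E, m, h1, h2, h3, h4, h5⟩
  · rintro ⟨Z, φ, K, E, m, h1, h2, h3, h4, h5⟩
    exact ⟨Z, φ, K, E, m, ⟨h1, h2, h3, h4⟩, h5⟩

theorem isACover_iff (V : PVar) (L : PrimeDiv V →₀ ℤ) (Y : PVar) (f : Y.X ⟶ V.X) :
    IsACover V L Y f ↔ GMC.IsACover V L Y f := by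
  unfold IsACover
  simp only [aInv_iff]
  exact Iff.rfl

theorem iitakaPos_iff (V : PVar) (L : PrimeDiv V →₀ ℤ) (Y : PVar) (f : Y.X ⟶ V.X) :
    IitakaPos V L Y f ↔ GMC.IitakaPos V L Y f := by
  unfold IitakaPos GMC.IitakaPos
  simp only [data_iff, add_comb, linEquiv_iff, eff_iff]
  constructor
  · rintro ⟨Z, φ, K, E, m, ⟨h1, h2, h3, h4⟩, k, D₁, D₂, h5, h6, h7, h8, h9, h10⟩
    exact ⟨Z, φ, K, E, m, h1, h2, h3, h4, k, D₁, D₂, h5, h6, h7, h8, h9, h10⟩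
  · rintro ⟨Z, φ, K, E, m, h1, h2, h3, h4, k, D₁, D₂, h5, h6, h7, h8, h9, h10⟩
    exact ⟨Z, φ, K, E, m, ⟨h1, h2, h3, h4⟩, k, D₁, D₂, h5, h6, h7, h8, h9, h10⟩

theorem inFace_coe (V : PVar) (L : PrimeDiv V →₀ ℤ) (Y : PVar) (f : Y.X ⟶ V.X)
    (γ : (PrimeDiv Y →₀ ℤ) →+ ℝ) : InFace V L Y f γ ↔ GMC.InFace V L Y f γ := by
  unfold InFace
  simp only [isNef1_coe, aInv_iff, isCan_iff, mul_nat]
  exact Iff.rfl

theorem isFaceContracting_iff (V : PVar) (L : PrimeDiv V →₀ ℤ) (Y : PVar) (f : Y.X ⟶ V.X) :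
    IsFaceContracting V L Y f ↔ GMC.IsFaceContracting V L Y f := by
  unfold IsFaceContracting
  simp only [isACover_iff, isQFactorial_iff, isTerminal_iff, isUniruled_iff]
  constructor
  · rintro ⟨h1, h2, γ₁, γ₂, h3, h4, h5, h6⟩
    obtain ⟨a1, a2, a3⟩ := h2 V (Or.inl rfl)
    obtain ⟨b1, b2, b3⟩ := h2 Y (Or.inr rfl)
    refine ⟨h1, a1, a2, a3, b1, b2, b3, toHom γ₁ h3.1.1, toHom γ₂ h4.1.1,
      (inFace_coe V L Y f _).mp h3, (inFace_coe V L Y f _).mp h4, fun h => h5 ?_, h6⟩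
    exact congrArg (fun γ : (PrimeDiv Y →₀ ℤ) →+ ℝ => (γ : (PrimeDiv Y →₀ ℤ) → ℝ)) h
  · rintro ⟨h1, a1, a2, a3, b1, b2, b3, γ₁, γ₂, h3, h4, h5, h6⟩
    refine ⟨h1, ?_, γ₁, γ₂, (inFace_coe V L Y f _).mpr h3, (inFace_coe V L Y f _).mpr h4,
      fun h => h5 (DFunLike.coe_injective h), h6⟩
    rintro U (rfl | rfl)
    · exact ⟨a1, a2, a3⟩
    · exact ⟨b1, b2, b3⟩

theorem isBreaking_iff (V Y : PVar) (f : Y.X ⟶ V.X) :
    IsBreaking V Y f ↔ GMC.IsBreaking V Y f := by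
  unfold IsBreaking GMC.IsBreaking
  simp only [isACover_iff, iitakaPos_iff, isFaceContracting_iff, isCan_iff, aInv_iff, mul_neg']
  constructor
  · rintro ⟨h1, h2, K, L, h3, rfl, h4⟩
    exact ⟨h1, h2, K, h3, h4⟩
  · rintro ⟨h1, h2, K, h3, h4⟩
    exact ⟨h1, h2, K, _, h3, rfl, h4⟩

theorem isAccumulating_iff (V : PVar) (M : Set (Rat V)) :
    IsAccumulating V M ↔ GMC.IsAccumulating V M := by
  unfold IsAccumulating
  simp only [isBreaking_iff]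
  exact Iff.rfl

theorem maninComponents_coe (V : PVar) (β : (PrimeDiv V →₀ ℤ) →+ ℝ) :
    maninComponents V β = GMC.maninComponents V β := by
  unfold maninComponents GMC.maninComponents
  ext M
  have h : ∀ (g : PS 1 ⟶ V.X), HasClass (W := P1) g β ↔ GMC.HasClass (V := V) (C := GMC.P1) g β :=
    fun g => hasClass_coe (W := P1) g β
  constructor
  · rintro ⟨h1, h2, h3⟩
    refine ⟨h1, fun c hc => ?_, fun h4 => h3 ((isAccumulating_iff V M).mpr h4)⟩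
    obtain ⟨g, h4, h5⟩ := h2 c hc
    exact ⟨g, h4, (h g).mp h5⟩
  · rintro ⟨h1, h2, h3⟩
    refine ⟨h1, fun c hc => ?_, fun h4 => h3 ((isAccumulating_iff V M).mp h4)⟩
    obtain ⟨g, h4, h5⟩ := h2 c hc
    exact ⟨g, h4, (h g).mpr h5⟩

theorem conjecture_iff (V : PVar) : Conjecture V ↔ GMC.Conjecture V := by
  constructor
  · rintro ⟨c, α, h1, h2⟩
    refine ⟨c, toHom α h1.1, (isNef1_coe _).mp h1, fun β h3 h4 => ?_⟩
    rw [← maninComponents_coe]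
    exact h2 β ((isCurveClass_coe β).mpr h3) ((isNef1_coe (β - toHom α h1.1)).mpr h4)
  · rintro ⟨c, α, h1, h2⟩
    refine ⟨c, α, (isNef1_coe _).mpr h1, fun β h3 h4 => ?_⟩
    have h5 : IsAdd β := by
      intro D E
      have h6 : β (add D 1 E) - α (add D 1 E) = β D - α D + (β E - α E) := h4.1 D E
      have h7 : α (add D 1 E) = α D + α E := isAdd_coe α D E
      linarith
    have h8 := h2 (toHom β h5) ((isCurveClass_coe (toHom β h5)).mp h3)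
      ((isNef1_coe (toHom β h5 - α)).mp h4)
    rw [← maninComponents_coe] at h8
    exact h8

theorem main : ∃ V : PVar, IsQFactorial V ∧ IsTerminal V ∧ IsWeakFano V ∧ ¬ Conjecture V ∧
    ∀ (α : (PrimeDiv V →₀ ℤ) → ℝ) (N : ℕ), IsNef1 α →
      ∃ β : (PrimeDiv V →₀ ℤ) → ℝ, IsCurveClass V β ∧ IsNef1 (fun D => β D - α D) ∧
        N ≤ (maninComponents V β).encard := by
  obtain ⟨V, h1, h2, h3, h4, h5⟩ := GMC.All.answer
  refine ⟨V, (isQFactorial_iff V).mpr h1, (isTerminal_iff V).mpr h2, (isWeakFano_iff V).mpr h3,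
    fun h => h4 ((conjecture_iff V).mp h), fun α N hα => ?_⟩
  obtain ⟨β, h6, h7, h8⟩ := h5 (toHom α hα.1) N ((isNef1_coe _).mp hα)
  refine ⟨β, (isCurveClass_coe β).mpr h6, (isNef1_coe (β - toHom α hα.1)).mpr h7, ?_⟩
  rw [← maninComponents_coe] at h8
  exact h8

end GMCS
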