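import Pool.Agent.H30.GMC.Inst

/-!
Definitions for the statement: terminal and weak Fano varieties, nef curve classes,
`a`-invariants, breaking morphisms, Manin components.
-/

open AlgebraicGeometry CategoryTheory GMC

namespace GMCS

/-- `ℙ¹` as a projective variety. -/
noncomputable def P1 : PVar where
  X := PS 1
  str := PSstr 1
  n := 1
  emb := 𝟙 _
  comm := Category.id_comp _

/-- `a` is an integral combination of elements with the property `P`. -/
def Comb {A : Type} [AddCommGroup A] (P : A → Prop) (a : A) : Prop :=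
  a ∈ AddSubgroup.closure {b | P b}

/-- The value of a homomorphism of rings. -/
def ap {A B : CommRingCat.{0}} (f : A ⟶ B) (a : A) : B := f.hom a

section Schemes

variable {X Y : Scheme.{0}}

/-- The codimension of the closure of a point. -/
noncomputable def codim (x : Pnt X) : ℕ∞ := Order.coheight (α := X) x

/-- `y` lies in the closure of `x`. -/
def Spz (x y : Pnt X) : Prop := Specializes (X := X) x y

/-- `x` lies in `U`. -/
def Mem (U : X.Opens) (x : Pnt X) : Prop := x ∈ U

variable (X) in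
/-- The generic point. -/
noncomputable def gen [IsIntegral X] : Pnt X := genericPoint X

variable (X) in
/-- The local ring at a point. -/
noncomputable def Stk (x : Pnt X) : CommRingCat.{0} := X.presheaf.stalk x

/-- The map of local rings. -/
noncomputable def stkMap (g : Y ⟶ X) (y : Pnt Y) : Stk X (pmap g y) ⟶ Stk Y y := g.stalkMap y

variable (X) in
/-- The residue field of a point. -/
noncomputable def Res (x : Pnt X) : CommRingCat.{0} := X.residueField x

/-- The map of residue fields. -/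
noncomputable def resMap (g : Y ⟶ X) (y : Pnt Y) : Res X (pmap g y) ⟶ Res Y y :=
  g.residueFieldMap y

variable (X) in
/-- The ring of global functions. -/
noncomputable def Glob : CommRingCat.{0} := Γ(X, ⊤)

/-- The structure map of the ring of global functions of a scheme over `ℂ`. -/
noncomputable def glob (s : X ⟶ Spec (.of ℂ)) : CommRingCat.of ℂ ⟶ Glob X :=
  (Scheme.ΓSpecIso (.of ℂ)).inv ≫ s.appTop

variable (X) in
/-- The germ of a global function at a point. -/
noncomputable def germ (x : Pnt X) : Glob X ⟶ Stk X x := X.presheaf.germ ⊤ x trivial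

/-- The structure map of the local rings of a scheme over `ℂ`. -/
noncomputable def stk (s : X ⟶ Spec (.of ℂ)) (x : Pnt X) : CommRingCat.of ℂ ⟶ Stk X x :=
  glob s ≫ germ X x

variable (X) in
/-- The inclusion of a local ring into the function field. -/
noncomputable def toK [IsIntegral X] (x : Pnt X) : Stk X x ⟶ Stk X (gen X) :=
  X.presheaf.stalkSpecializes ((genericPoint_spec X).specializes trivial)

/-- The order of a rational function at a point of codimension one. -/
noncomputable def ordAt [IsIntegral X] [IsLocallyNoetherian X] (f : Stk X (gen X)) (x : Pnt X) :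
    ℤ := Scheme.ord (X := X) f x

/-- The rational function `f` is not zero. -/
def NonZero [IsIntegral X] (f : Stk X (gen X)) : Prop := f ≠ 0

/-- The rational function `b` on `Y` is the pull-back of the rational function `a` on `X`, which
is regular at the image of the generic point of `Y`. -/
def IsPull [IsIntegral X] [IsIntegral Y] (g : Y ⟶ X) (a : Stk X (gen X)) (b : Stk Y (gen Y)) :
    Prop :=
  ∃ s : Stk X (pmap g (gen Y)), ap (toK X (pmap g (gen Y))) s = a ∧ ap (stkMap g (gen Y)) s = b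

/-- The morphism `g` is birational: it maps the generic point to the generic point and induces an
isomorphism of function fields. -/
def IsBirational [IsIntegral X] [IsIntegral Y] (g : Y ⟶ X) : Prop :=
  pmap g (gen Y) = gen X ∧ Function.Bijective (ap (stkMap g (gen Y)))

/-- The morphism `g` is generically finite onto its image: the function field of `Y` is a finite
extension of the residue field of the image of the generic point. -/
def IsGenFinite [IsIntegral Y] (g : Y ⟶ X) : Prop := (resMap g (gen Y)).hom.Finite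

end Schemes

section Forms

/-- `dt_1, …, dt_n` is a basis of `M`; `d` is a map from the ring `A` to the module `M`. -/
def IsCoord {A M : Type} [CommRing A] [AddCommGroup M] [Module A M] (d : A → M) {n : ℕ}
    (t : Fin n → A) : Prop :=
  ∃ c : Module.Basis (Fin n) A M, ∀ i, c i = d (t i)

/-- `da_1 ∧ … ∧ da_n = g dt_1 ∧ … ∧ dt_n` in the vector space `M` over the field `F`, where the
`da_i` and the `dt_i` form bases. -/
def IsJac {F M : Type} [Field F] [AddCommGroup M] [Module F M] (d : F → M) {n : ℕ}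
    (t a : Fin n → F) (g : F) : Prop :=
  ∃ b c : Module.Basis (Fin n) F M, (∀ i, b i = d (a i)) ∧ (∀ i, c i = d (t i)) ∧ g = c.det b

/-- Coordinates of the `k`-algebra `A`: their differentials form a basis of the module of Kähler
differentials. -/
def IsCoordOver (k A : Type) [CommRing k] [CommRing A] [Algebra k A] {n : ℕ} (t : Fin n → A) :
    Prop := IsCoord (KaehlerDifferential.D k A) t

/-- The same for the Kähler differentials of the field `F` over `k`. -/
def IsJacOver (k F : Type) [CommRing k] [Field F] [Algebra k F] {n : ℕ} (t a : Fin n → F)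
    (g : F) : Prop := IsJac (KaehlerDifferential.D k F) t a g

/-- Local coordinates at `x`. -/
def IsLocal {X : Scheme.{0}} (s : X ⟶ Spec (.of ℂ)) (x : Pnt X) {n : ℕ} (t : Fin n → Stk X x) :
    Prop := @IsCoordOver ℂ (Stk X x) _ _ (stk s x).hom.toAlgebra n t

/-- `da_1 ∧ … ∧ da_n = g dt_1 ∧ … ∧ dt_n` for rational functions. -/
def IsJacAt {X : Scheme.{0}} [IsIntegral X] (s : X ⟶ Spec (.of ℂ)) {n : ℕ}
    (t a : Fin n → Stk X (gen X)) (g : Stk X (gen X)) : Prop :=
  @IsJacOver ℂ X.functionField _ _ (stk s (gen X)).hom.toAlgebra n t a g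

end Forms

/-- The points of `V`. -/
def Pt (V : PVar) : Type := Pnt V.X

/-- Prime divisors: the points of codimension one. -/
def PrimeDiv (V : PVar) : Type := {p : Pt V // codim p = 1}

/-- The generic point of a prime divisor. -/
def pt {V : PVar} (p : PrimeDiv V) : Pt V := p.1

/-- `V` is normal. -/
def IsNormal (V : PVar) : Prop := ∀ x : Pt V, IsIntegrallyClosed (Stk V.X x)

/-- The function field. -/
noncomputable def FF (V : PVar) : CommRingCat.{0} := Stk V.X (gen V.X)

section Divisors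

variable {V W : PVar}

/-- The order of a rational function at a prime divisor. -/
noncomputable def ord (f : FF V) (p : PrimeDiv V) : ℤ := ordAt f (pt p)

/-- `y` lies on the prime divisor `p`. -/
def On (p : PrimeDiv V) (y : Pt V) : Prop := Spz (pt p) y

/-- Effective divisors. -/
def Eff (D : PrimeDiv V →₀ ℤ) : Prop := ∀ p, 0 ≤ D p

/-- `n D`. -/
noncomputable def mul (n : ℤ) (D : PrimeDiv V →₀ ℤ) : PrimeDiv V →₀ ℤ := n • D

/-- `D + n E`. -/
noncomputable def add (D : PrimeDiv V →₀ ℤ) (n : ℤ) (E : PrimeDiv V →₀ ℤ) : PrimeDiv V →₀ ℤ :=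
  D + mul n E

/-- Linear equivalence: `E = D + div f` for a nonzero rational function `f`. -/
def LinEquiv (D E : PrimeDiv V →₀ ℤ) : Prop :=
  ∃ f : FF V, NonZero f ∧ ∀ p : PrimeDiv V, E p = D p + ord f p

/-- `D` is ample: every point `x` lies in an affine open set which is the complement of the
support of an effective divisor linearly equivalent to a positive multiple of `D`. -/
def IsAmple (D : PrimeDiv V →₀ ℤ) : Prop :=
  ∀ x : Pt V, ∃ (n : ℕ) (E : PrimeDiv V →₀ ℤ) (U : V.X.Opens),
    0 < n ∧ LinEquiv (mul n D) E ∧ Eff E ∧ IsAffineOpen U ∧ Mem U x ∧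
      ∀ y : Pt V, Mem U y ↔ ∀ p : PrimeDiv V, On p y → E p = 0

/-- Numerically trivial divisors, by Kleiman's criterion: `H + D` and `H - D` are ample for every
ample `H`. -/
def IsNumTriv (D : PrimeDiv V →₀ ℤ) : Prop :=
  ∀ H : PrimeDiv V →₀ ℤ, IsAmple H → IsAmple (add H 1 D) ∧ IsAmple (add H (-1) D)

/-- `h` is an equation of the divisor `D` near the point `x`. -/
def IsEq (D : PrimeDiv V →₀ ℤ) (x : Pt V) (h : FF V) : Prop :=
  NonZero h ∧ ∀ p : PrimeDiv V, On p x → D p = ord h p

/-- Cartier divisors: locally principal Weil divisors. -/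
def IsCartier (D : PrimeDiv V →₀ ℤ) : Prop := ∀ x : Pt V, ∃ h, IsEq D x h

/-- Nef divisors, by Kleiman's criterion: `H + n D` is ample for all ample `H` and all `n ≥ 0`. -/
def IsNef (D : PrimeDiv V →₀ ℤ) : Prop :=
  ∀ H : PrimeDiv V →₀ ℤ, IsAmple H → ∀ n : ℕ, IsAmple (add H n D)

/-- Big divisors: some positive multiple is the sum of an ample and an effective divisor. -/
def IsBig (D : PrimeDiv V →₀ ℤ) : Prop :=
  ∃ (m : ℕ) (A E : PrimeDiv V →₀ ℤ), 0 < m ∧ IsAmple A ∧ Eff E ∧ LinEquiv (mul m D) (add A 1 E)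

/-- The divisor `E` on `W` is a pull-back of the Cartier divisor `D` on `V`: it is the pull-back of
a divisor `D + div f` whose support does not contain the image of `W`. -/
def IsPullDiv (g : W.X ⟶ V.X) (D : PrimeDiv V →₀ ℤ) (E : PrimeDiv W →₀ ℤ) : Prop :=
  ∃ f : FF V, NonZero f ∧ ∀ p : PrimeDiv W, ∃ (h : FF V) (h' : FF W), NonZero h ∧
    (∀ q : PrimeDiv V, On q (pmap g (pt p)) → D q + ord f q = ord h q) ∧
    IsPull g h h' ∧ NonZero h' ∧ E p = ord h' p

/-- The degree of a divisor on a curve. -/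
noncomputable def deg (E : PrimeDiv V →₀ ℤ) : ℤ := E.sum fun _ n => n

/-- Real valued additive functions on the group of divisors. -/
def IsAdd (γ : (PrimeDiv V →₀ ℤ) → ℝ) : Prop := ∀ D E, γ (add D 1 E) = γ D + γ E

/-- The cone `Nef₁(V)` of nef curve classes: real valued additive functions on the group of divisors
which are zero on numerically trivial divisors and nonnegative on effective divisors. -/
def IsNef1 (γ : (PrimeDiv V →₀ ℤ) → ℝ) : Prop :=
  IsAdd γ ∧ (∀ D, IsNumTriv D → γ D = 0) ∧ ∀ D, Eff D → 0 ≤ γ D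

/-- `γ` is the class of the morphism `g` from the curve `W` to `V`: the additive function which
maps a divisor `D` to `deg (g^* (m D)) / m`. -/
def HasClass (g : W.X ⟶ V.X) (γ : (PrimeDiv V →₀ ℤ) → ℝ) : Prop :=
  IsAdd γ ∧ ∀ (D : PrimeDiv V →₀ ℤ) (m : ℕ) (E : PrimeDiv W →₀ ℤ), 0 < m →
    IsPullDiv g (mul m D) E → m * γ D = deg E

/-- The rational top form `da_1 ∧ … ∧ da_n` is not zero and has order `k` at the prime divisor `p`:
there are local coordinates `t` at `p`, i. e. elements of the local ring at `p` whose differentials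
form a basis of its Kähler differentials, such that `da_1 ∧ … ∧ da_n = g dt_1 ∧ … ∧ dt_n` with
`ord_p g = k`. -/
def FormOrd {n : ℕ} (a : Fin n → FF V) (p : PrimeDiv V) (k : ℤ) : Prop :=
  ∃ (t : Fin n → Stk V.X (pt p)) (g : FF V), IsLocal V.str (pt p) t ∧
    IsJacAt V.str (fun i => ap (toK V.X (pt p)) (t i)) a g ∧ k = ord g p

end Divisors

/-- `K` is a canonical divisor: the divisor of a nonzero rational top form `f da_1 ∧ … ∧ da_n`. -/
def IsCan (V : PVar) (K : PrimeDiv V →₀ ℤ) : Prop :=
  ∃ (n : ℕ) (a : Fin n → FF V) (f : FF V), NonZero f ∧ ∀ p, FormOrd a p (K p - ord f p)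

/-- `V` is `ℚ`-factorial: normal, and every Weil divisor has a positive multiple which is
Cartier. -/
def IsQFactorial (V : PVar) : Prop :=
  IsNormal V ∧ ∀ D : PrimeDiv V →₀ ℤ, ∃ m : ℕ, 0 < m ∧ IsCartier (mul m D)

/-- `g` is a morphism from `W` to `V` over `ℂ`. -/
def IsOver {W V : PVar} (g : W.X ⟶ V.X) : Prop := g ≫ V.str = W.str

/-- `V` is terminal: it is normal, a canonical divisor `K = div (da_1 ∧ … ∧ da_n)` has a Cartier
multiple `m K`, and for every birational morphism `g : W → V` from a normal projective variety and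
every exceptional prime divisor `E` of `g` the coefficient of `K_W - g^* K` at `E` is positive:
`m ord_E (g^* (da_1 ∧ … ∧ da_n)) > ord_E (g^* h)`, where `h` is an equation of `m K` near
`g(E)`. -/
def IsTerminal (V : PVar) : Prop :=
  IsNormal V ∧ ∃ (n : ℕ) (a : Fin n → FF V) (K : PrimeDiv V →₀ ℤ) (m : ℕ),
    0 < m ∧ (∀ p, FormOrd a p (K p)) ∧ IsCartier (mul m K) ∧
    ∀ (W : PVar) (g : W.X ⟶ V.X), IsNormal W → IsOver g → IsBirational g →
      ∀ E : PrimeDiv W, codim (pmap g (pt E)) ≠ 1 →
      ∀ (a' : Fin n → FF W) (k : ℤ) (h : FF V) (h' : FF W), (∀ i, IsPull g (a i) (a' i)) →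
        FormOrd a' E k → IsEq (mul m K) (pmap g (pt E)) h → IsPull g h h' → ord h' E < m * k

/-- `V` is weak Fano: normal, with nef and big anticanonical divisor. -/
def IsWeakFano (V : PVar) : Prop :=
  IsNormal V ∧ ∃ K : PrimeDiv V →₀ ℤ, IsCan V K ∧ IsNef (mul (-1) K) ∧ IsBig (mul (-1) K)

/-- Normal projective curves. -/
def IsCurve (C : PVar) : Prop := IsNormal C ∧ ∀ x : Pt C, codim x ≤ 1

/-- Curve classes: integral combinations of classes of curves. -/
def IsCurveClass (V : PVar) (β : (PrimeDiv V →₀ ℤ) → ℝ) : Prop :=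
  Comb (fun γ => ∃ (C : PVar) (g : C.X ⟶ V.X), IsCurve C ∧ IsOver g ∧ HasClass g γ) β

/-- `V` is uniruled: every closed point lies on a rational curve. -/
def IsUniruled (V : PVar) : Prop :=
  ∀ x : Pt V, (∀ y, Spz x y → y = x) → ∃ (c : Rat V) (g : P1.X ⟶ V.X), IsMor g c ∧
    ∃ y, pmap g y = x

/-- `φ : Z → Y` is a resolution of singularities: `Z` is smooth (and hence normal) and `φ` is
birational. -/
def IsResolution (Z Y : PVar) (φ : Z.X ⟶ Y.X) : Prop :=
  Smooth Z.str ∧ IsNormal Z ∧ IsOver φ ∧ IsBirational φ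

/-- `φ : Z → Y` is a resolution, `K` is a canonical divisor on `Z` and `E` a pull-back of `m L`
under `f ∘ φ`, where `f : Y → V`. -/
def Data (V : PVar) (L : PrimeDiv V →₀ ℤ) (Y : PVar) (f : Y.X ⟶ V.X) (Z : PVar) (φ : Z.X ⟶ Y.X)
    (K E : PrimeDiv Z →₀ ℤ) (m : ℕ) : Prop :=
  IsResolution Z Y φ ∧ IsCan Z K ∧ 0 < m ∧ IsPullDiv (φ ≫ f) (mul m L) E

/-- `a(Y, f^* L) = a`, where `L` is a `ℚ`-Cartier divisor on `V` and `f : Y → V` a morphism: for a
resolution `φ : Z → Y`, `a` is the infimum of the real numbers `r` such that `K_Z + r φ^* f^* L` is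
pseudo-effective, i. e. nonnegative on `Nef₁(Z)`. -/
def AInv (V : PVar) (L : PrimeDiv V →₀ ℤ) (Y : PVar) (f : Y.X ⟶ V.X) (a : EReal) : Prop :=
  ∃ (Z : PVar) (φ : Z.X ⟶ Y.X) (K E : PrimeDiv Z →₀ ℤ) (m : ℕ), Data V L Y f Z φ K E m ∧
    a = sInf {t : EReal | ∃ r : ℝ, t = r ∧
      ∀ γ : (PrimeDiv Z →₀ ℤ) → ℝ, IsNef1 γ → 0 ≤ γ K + r * (γ E / m)}

/-- `f : Y → V` is an `a`-cover with respect to `L`: dominant, not birational, with
`a(Y, f^* L) = a(V, L)`. -/
def IsACover (V : PVar) (L : PrimeDiv V →₀ ℤ) (Y : PVar) (f : Y.X ⟶ V.X) : Prop :=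
  pmap f (gen Y.X) = gen V.X ∧ ¬ IsBirational f ∧ ∃ a, AInv V L Y f a ∧ AInv V L V (𝟙 V.X) a

/-- The Iitaka dimension of `K_Y + f^* L` is positive: on a resolution `φ : Z → Y` some positive
multiple of `K_Z + φ^* f^* L` is linearly equivalent to two different effective divisors. -/
def IitakaPos (V : PVar) (L : PrimeDiv V →₀ ℤ) (Y : PVar) (f : Y.X ⟶ V.X) : Prop :=
  ∃ (Z : PVar) (φ : Z.X ⟶ Y.X) (K E : PrimeDiv Z →₀ ℤ) (m : ℕ), Data V L Y f Z φ K E m ∧
    ∃ (k : ℕ) (D₁ D₂ : PrimeDiv Z →₀ ℤ), 0 < k ∧ Eff D₁ ∧ Eff D₂ ∧ D₁ ≠ D₂ ∧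
      LinEquiv (mul k (add E m K)) D₁ ∧ LinEquiv (mul k (add E m K)) D₂

/-- `γ` lies in `F(Y, f^* L)`: it is a nef curve class on `Y` with
`(K_Y + a(Y, f^* L) f^* L) · γ = 0`. -/
def InFace (V : PVar) (L : PrimeDiv V →₀ ℤ) (Y : PVar) (f : Y.X ⟶ V.X)
    (γ : (PrimeDiv Y →₀ ℤ) → ℝ) : Prop :=
  IsNef1 γ ∧ ∃ (a : ℝ) (K E : PrimeDiv Y →₀ ℤ) (m : ℕ), AInv V L Y f a ∧ IsCan Y K ∧
    0 < m ∧ IsPullDiv f (mul m L) E ∧ γ K + a * (γ E / m) = 0

/-- `f : Y → V` is face contracting with respect to `L`: it is an `a`-cover, `V` and `Y` are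
`ℚ`-factorial, terminal and uniruled, and `f_* : F(Y, f^* L) → F(V, L)` is not injective. -/
def IsFaceContracting (V : PVar) (L : PrimeDiv V →₀ ℤ) (Y : PVar) (f : Y.X ⟶ V.X) : Prop :=
  IsACover V L Y f ∧ (∀ U, U = V ∨ U = Y → IsQFactorial U ∧ IsTerminal U ∧ IsUniruled U) ∧
    ∃ γ₁ γ₂ : (PrimeDiv Y →₀ ℤ) → ℝ, InFace V L Y f γ₁ ∧ InFace V L Y f γ₂ ∧ γ₁ ≠ γ₂ ∧
      ∀ (D : PrimeDiv V →₀ ℤ) (E : PrimeDiv Y →₀ ℤ), IsPullDiv f D E → γ₁ E = γ₂ E

/-- `f : Y → V` is a breaking morphism: it is generically finite onto its image, and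
`a(Y, - f^* K_V) > 1`, or `f` is an `a`-cover with `κ(Y, K_Y - f^* K_V) > 0`, or `f` is face
contracting. -/
def IsBreaking (V Y : PVar) (f : Y.X ⟶ V.X) : Prop :=
  IsOver f ∧ IsGenFinite f ∧ ∃ K L : PrimeDiv V →₀ ℤ, IsCan V K ∧ L = mul (-1) K ∧
    ((∃ a, AInv V L Y f a ∧ 1 < a) ∨ (IsACover V L Y f ∧ IitakaPos V L Y f) ∨
      IsFaceContracting V L Y f)

/-- For every nonempty open subset `U` of `N` the elements of `M` with the relation `R` to some
element of `U` are dense in `M`. -/
def Dom {S T : Type} [TopologicalSpace S] [TopologicalSpace T] (R : S → T → Prop) (N : Set S)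
    (M : Set T) : Prop :=
  ∀ U : Set S, IsOpen U → (U ∩ N).Nonempty → M ⊆ closure {c | c ∈ M ∧ ∃ ψ ∈ U ∩ N, R ψ c}

/-- Composition with `f : Y → V` gives a dominant rational map from the set `N` of rational curves
on `Y` to the set `M` of rational curves on `V`: for every nonempty open subset `U` of `N` the
curves in `M` of the form `f ∘ ψ`, `ψ ∈ U`, are dense in `M`. -/
def Dominates {V Y : PVar} (f : Y.X ⟶ V.X) (N : Set (Rat Y)) (M : Set (Rat V)) : Prop :=
  Dom (fun ψ c => ∃ g : PS 1 ⟶ Y.X, IsMor g ψ ∧ IsMor (g ≫ f) c) N M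

/-- The component `M` of the space of rational curves on `V` is accumulating. -/
def IsAccumulating (V : PVar) (M : Set (Rat V)) : Prop :=
  ∃ (Y : PVar) (f : Y.X ⟶ V.X), IsBreaking V Y f ∧ ∃ N ∈ irreducibleComponents (Rat Y),
    Dominates f N M

/-- The Manin components of class `β`: the irreducible components of the space of rational curves
on `V` which consist of curves of class `β` and are not accumulating. -/
def maninComponents (V : PVar) (β : (PrimeDiv V →₀ ℤ) → ℝ) : Set (Set (Rat V)) :=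
  {M | M ∈ irreducibleComponents (Rat V) ∧
    (∀ c ∈ M, ∃ g : P1.X ⟶ V.X, IsMor g c ∧ HasClass g β) ∧ ¬ IsAccumulating V M}

/-- The conclusion of the conjecture for `V`: there are an integer `c` and a nef curve class `α`
such that there are exactly `c` Manin components of class `β` for every curve class `β` in
`α + Nef₁(V)`. -/
def Conjecture (V : PVar) : Prop :=
  ∃ (c : ℕ) (α : (PrimeDiv V →₀ ℤ) → ℝ), IsNef1 α ∧
    ∀ β : (PrimeDiv V →₀ ℤ) → ℝ, IsCurveClass V β → IsNef1 (fun D => β D - α D) →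
      (maninComponents V β).encard = c

end GMCS
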